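import Mathlib

set_option autoImplicit false
set_option linter.all false
open Pointwise MeasureTheory Set Filter Topology

namespace Pool.Agent.TH421.GO

section approx
variable {E : Type*} [NormedAddCommGroup E] [NormedSpace ℝ E] [FiniteDimensional ℝ E]

/-- inner polytope of a compact convex set with the origin inside -/
theorem exists_polytope_zero (L : Set E) (hL : IsCompact L) (r : ℝ) (hr : 0 < r)
    (hball : Metric.closedBall (0 : E) r ⊆ L) (δ : ℝ) (hδ : 0 < δ) (hδ1 : δ < 1) :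
    ∃ V : Finset E, (V : Set E) ⊆ L ∧ (1 - δ) • L ⊆ convexHull ℝ (V : Set E) := by
  classical
  obtain ⟨V, hVL, hVf, hcov⟩ := hL.finite_cover_balls (e := δ * r) (by positivity)
  refine ⟨hVf.toFinset, by simpa using hVL, ?_⟩
  rintro _ ⟨x, hx, rfl⟩
  simp only [Set.Finite.coe_toFinset]
  by_contra hcon
  obtain ⟨f, u, hfu, hux⟩ := geometric_hahn_banach_closed_point (convex_convexHull ℝ V)
    (hVf.isCompact_convexHull ℝ).isClosed hcon
  obtain ⟨y, hy, hmax⟩ := hL.exists_isMaxOn ⟨x, hx⟩ f.continuous.continuousOn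
  obtain ⟨v, hv, hyv⟩ : ∃ v ∈ V, y ∈ Metric.ball v (δ * r) := by
    simpa using hcov hy
  have hz : δ⁻¹ • (y - v) ∈ L := by
    apply hball
    rw [mem_closedBall_zero_iff, norm_smul, norm_inv, Real.norm_of_nonneg hδ.le]
    rw [Metric.mem_ball, dist_eq_norm] at hyv
    rw [inv_mul_le_iff₀ hδ]
    exact hyv.le
  have h1 : f (δ⁻¹ • (y - v)) ≤ f y := hmax hz
  rw [map_smul, map_sub, smul_eq_mul, inv_mul_le_iff₀ hδ] at h1
  have h2 : f v < u := hfu v (subset_convexHull ℝ V hv)
  have h3 : f x ≤ f y := hmax hx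
  simp only [map_smul, smul_eq_mul] at hux
  nlinarith [mul_le_mul_of_nonneg_left h3 (by linarith : (0:ℝ) ≤ 1 - δ)]

/-- the polytope inside a compact convex set with interior -/
theorem exists_polytope (K : Set E) (hK : IsCompact K) (hc : Convex ℝ K) (x₀ : E)
    (hx₀ : x₀ ∈ interior K) (δ : ℝ) (hδ : 0 < δ) (hδ1 : δ < 1) :
    ∃ V : Finset E, (V : Set E) ⊆ K ∧ (interior (convexHull ℝ (V : Set E))).Nonempty ∧
      (∀ x ∈ K, x₀ + (1 - δ) • (x - x₀) ∈ convexHull ℝ (V : Set E)) := by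
  classical
  set L : Set E := (fun x => x₀ + x) ⁻¹' K with hLdef
  have hemb : Topology.IsClosedEmbedding (fun x : E => x₀ + x) := (Homeomorph.addLeft x₀).isClosedEmbedding
  have hL : IsCompact L := hemb.isCompact_preimage hK
  obtain ⟨r, hr, hball⟩ : ∃ r > 0, Metric.closedBall (0 : E) r ⊆ L := by
    have : (fun x => x₀ + x) ⁻¹' (interior K) ∈ 𝓝 (0 : E) := by
      apply (continuous_const.add continuous_id).continuousAt.preimage_mem_nhds
      simpa using isOpen_interior.mem_nhds hx₀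
    obtain ⟨r, hr, h⟩ := Metric.nhds_basis_closedBall.mem_iff.1 this
    exact ⟨r, hr, h.trans (preimage_mono interior_subset)⟩
  obtain ⟨V, hVL, hV⟩ := exists_polytope_zero L hL r hr hball δ hδ hδ1
  have hmem : ∀ y, y ∈ convexHull ℝ ((V.image fun x => x₀ + x : Finset E) : Set E) ↔
      -x₀ + y ∈ convexHull ℝ (V : Set E) := by
    intro y
    have : ((V.image fun x => x₀ + x : Finset E) : Set E) = x₀ +ᵥ (V : Set E) := by
      ext z
      simp only [Finset.coe_image, Set.mem_image, Finset.mem_coe, Set.mem_vadd_set, vadd_eq_add]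
    rw [this, convexHull_vadd, Set.mem_vadd_set_iff_neg_vadd_mem]
    rfl
  refine ⟨V.image (fun x => x₀ + x), ?_, ?_, ?_⟩
  · intro y hy
    simp only [Finset.coe_image, Set.mem_image] at hy
    obtain ⟨x, hx, rfl⟩ := hy
    exact hVL hx
  · refine ⟨x₀, mem_interior_iff_mem_nhds.2 ?_⟩
    have h1 : Metric.ball x₀ ((1 - δ) * r) ⊆ convexHull ℝ ((V.image fun x => x₀ + x : Finset E) : Set E) := by
      intro y hy
      rw [hmem]
      have : (1 - δ)⁻¹ • (-x₀ + y) ∈ L := by
        apply hball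
        rw [mem_closedBall_zero_iff, norm_smul, norm_inv, Real.norm_of_nonneg (by linarith),
          inv_mul_le_iff₀ (by linarith)]
        rw [Metric.mem_ball, dist_eq_norm] at hy
        rw [neg_add_eq_sub]
        exact hy.le
      have h2 := hV ⟨_, this, rfl⟩
      simp only at h2
      rwa [smul_smul, mul_inv_cancel₀ (by linarith), one_smul] at h2
    exact Filter.mem_of_superset (Metric.ball_mem_nhds _ (by nlinarith)) h1
  · intro x hx
    rw [hmem]
    apply hV
    refine ⟨x - x₀, ?_, ?_⟩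
    · change x₀ + (x - x₀) ∈ K
      simpa using hx
    · simp

variable [MeasurableSpace E] [BorelSpace E] (μ : Measure E) [μ.IsAddHaarMeasure]

theorem diff_subset {A B : Set E} (h : A ⊆ B) (s t : ℝ) : s • A - t • A ⊆ s • B - t • B :=
  Set.sub_subset_sub (Set.smul_set_mono h) (Set.smul_set_mono h)

/-- lower bound for the volume of the difference body of the inner polytope -/
theorem vol_diff_le (K P : Set E) (x₀ : E) (δ : ℝ) (hδ : 0 < δ) (hδ1 : δ < 1)
    (h : ∀ x ∈ K, x₀ + (1 - δ) • (x - x₀) ∈ P) (s t : ℝ) :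
    ENNReal.ofReal ((1 - δ) ^ Module.finrank ℝ E) * μ (s • K - t • K) ≤ μ (s • P - t • P) := by
  have h1 : (fun y => (δ * (s - t)) • x₀ + y) '' ((1 - δ) • (s • K - t • K)) ⊆ s • P - t • P := by
    rintro _ ⟨_, ⟨_, ⟨_, ⟨a, ha, rfl⟩, _, ⟨b, hb, rfl⟩, rfl⟩, rfl⟩, rfl⟩
    refine ⟨s • (x₀ + (1 - δ) • (a - x₀)), ⟨_, h a ha, rfl⟩, t • (x₀ + (1 - δ) • (b - x₀)),
      ⟨_, h b hb, rfl⟩, ?_⟩
    simp only
    module
  have h2 := measure_mono (μ := μ) h1
  rw [Set.image_add_left, measure_preimage_add, Measure.addHaar_smul] at h2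
  rwa [abs_of_nonneg (by apply pow_nonneg; linarith)] at h2

/-- the sequence of inner polytopes -/
theorem exists_seq (K : Set E) (hK : IsCompact K) (hc : Convex ℝ K) (hi : (interior K).Nonempty) :
    ∃ V : ℕ → Finset E, (∀ k, convexHull ℝ (V k : Set E) ⊆ K) ∧
      (∀ k, (interior (convexHull ℝ (V k : Set E))).Nonempty) ∧
      (∀ s t : ℝ, Tendsto (fun k => μ (s • convexHull ℝ (V k : Set E) - t • convexHull ℝ (V k : Set E)))
        atTop (𝓝 (μ (s • K - t • K)))) := by
  obtain ⟨x₀, hx₀⟩ := hi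
  have hd : ∀ k : ℕ, 0 < (1 : ℝ) / (k + 2) ∧ (1 : ℝ) / (k + 2) < 1 := by
    intro k
    refine ⟨by positivity, ?_⟩
    rw [div_lt_one (by positivity)]
    have : (0:ℝ) ≤ k := Nat.cast_nonneg k
    linarith
  choose V hVK hVi hV using fun k : ℕ =>
    exists_polytope K hK hc x₀ hx₀ ((1 : ℝ) / (k + 2)) (hd k).1 (hd k).2
  have hsub : ∀ k, convexHull ℝ (V k : Set E) ⊆ K := fun k => convexHull_min (hVK k) hc
  refine ⟨V, hsub, hVi, fun s t => ?_⟩
  have hlow : Tendsto (fun k : ℕ => ENNReal.ofReal ((1 - (1 : ℝ) / (k + 2)) ^ Module.finrank ℝ E) *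
      μ (s • K - t • K)) atTop (𝓝 (μ (s • K - t • K))) := by
    have h1 : Tendsto (fun k : ℕ => (1 : ℝ) / ((k : ℝ) + 2)) atTop (𝓝 0) := by
      have := (tendsto_one_div_add_atTop_nhds_zero_nat (𝕜 := ℝ)).comp (tendsto_add_atTop_nat 1)
      refine this.congr fun k => ?_
      simp only [Function.comp]
      push_cast
      ring_nf
    have h2 : Tendsto (fun k : ℕ => (1 - (1 : ℝ) / (k + 2)) ^ Module.finrank ℝ E) atTop (𝓝 1) := by
      have := (h1.const_sub 1).pow (Module.finrank ℝ E)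
      simpa using this
    have h3 := ENNReal.tendsto_ofReal h2
    rw [ENNReal.ofReal_one] at h3
    have h4 := ENNReal.Tendsto.mul_const (b := μ (s • K - t • K)) h3 (Or.inl one_ne_zero)
    simpa using h4
  exact tendsto_of_tendsto_of_tendsto_of_le_of_le hlow tendsto_const_nhds
    (fun k => vol_diff_le μ K _ x₀ _ (hd k).1 (hd k).2 (hV k) s t)
    (fun k => measure_mono (diff_subset (hsub k) s t))

end approx

end Pool.Agent.TH421.GO
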