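import Mathlib

set_option autoImplicit false
set_option linter.all false
open Polynomial Filter Topology

namespace Pool.Agent.TH421.GO

/-- coefficient extraction by interpolation -/
noncomputable def lam (n k i : ℕ) : ℝ :=
  (Lagrange.basis (Finset.range (n + 1)) (fun i : ℕ => (i : ℝ) + 1) i).coeff k

theorem coeff_eq (n : ℕ) (P : ℝ[X]) (hP : P.natDegree ≤ n) (k : ℕ) :
    P.coeff k = ∑ i ∈ Finset.range (n + 1), lam n k i * P.eval ((i : ℝ) + 1) := by
  have h1 : Set.InjOn (fun i : ℕ => (i : ℝ) + 1) (Finset.range (n + 1) : Set ℕ) := by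
    intro a _ b _ h
    simpa using h
  have h2 : P.degree < ((Finset.range (n + 1)).card : ℕ) := by
    rw [Finset.card_range]
    exact lt_of_le_of_lt (Polynomial.degree_le_natDegree) (by exact_mod_cast Nat.lt_succ_of_le hP)
  have h3 := Lagrange.eq_interpolate (s := Finset.range (n + 1)) (v := fun i : ℕ => (i : ℝ) + 1)
    h1 h2
  conv_lhs => rw [h3]
  rw [Lagrange.interpolate_apply, Polynomial.finset_sum_coeff]
  refine Finset.sum_congr rfl fun i _ => ?_
  rw [Polynomial.coeff_C_mul, mul_comm]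
  rfl

/-- the polynomial `∑ d j X^(n-j)` -/
noncomputable def pol (n : ℕ) (d : ℕ → ℝ) : ℝ[X] :=
  ∑ j ∈ Finset.range (n + 1), C (d j) * X ^ (n - j)

theorem pol_deg (n : ℕ) (d : ℕ → ℝ) : (pol n d).natDegree ≤ n := by
  apply Polynomial.natDegree_sum_le_of_forall_le
  intro i _
  exact (Polynomial.natDegree_C_mul_X_pow_le _ _).trans (Nat.sub_le _ _)

theorem pol_eval (n : ℕ) (d : ℕ → ℝ) (s : ℝ) :
    (pol n d).eval s = ∑ j ∈ Finset.range (n + 1), d j * s ^ (n - j) := by
  simp [pol, Polynomial.eval_finset_sum]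

theorem pol_coeff (n : ℕ) (d : ℕ → ℝ) (j : ℕ) (hj : j ≤ n) : (pol n d).coeff (n - j) = d j := by
  rw [pol, Polynomial.finset_sum_coeff]
  rw [Finset.sum_eq_single j]
  · simp [Polynomial.coeff_C_mul, Polynomial.coeff_X_pow]
  · intro i hi hij
    rw [Polynomial.coeff_C_mul, Polynomial.coeff_X_pow, if_neg, mul_zero]
    simp only [Finset.mem_range] at hi
    omega
  · intro h
    exact absurd (Finset.mem_range.2 (by omega)) h

theorem coef_formula (n : ℕ) (d : ℕ → ℝ) (j : ℕ) (hj : j ≤ n) :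
    d j = ∑ i ∈ Finset.range (n + 1), lam n (n - j) i *
      ∑ k ∈ Finset.range (n + 1), d k * ((i : ℝ) + 1) ^ (n - k) := by
  rw [← pol_coeff n d j hj, coeff_eq n (pol n d) (pol_deg n d)]
  simp_rw [pol_eval]

end Pool.Agent.TH421.GO
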