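import Mathlib
import Pool.Agent.TH421.GO.Approx
import Pool.Agent.TH421.GO.Coef

set_option autoImplicit false
set_option linter.all false
open Pointwise MeasureTheory Set Filter Topology

namespace Pool.Agent.TH421.GO

/-- the conclusion for one body -/
def CoreFor (n : ℕ) (K : Set (Fin n → ℝ)) : Prop :=
  ∃ d : ℕ → ℝ,
    (∀ s t : ℝ, 0 < s → 0 < t → (volume (s • K + t • (-K))).toReal =
      ∑ j ∈ Finset.range (n + 1), d j * s ^ (n - j) * t ^ j) ∧
    ∀ j ≤ n, 0 ≤ d j ∧ d j ≤ (n.choose j : ℝ) ^ 2 * (volume K).toReal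

/-- the polytope case (helper650) -/
def HCore : Prop := ∀ (n m : ℕ) (v : Fin m → Fin n → ℝ),
  (interior (convexHull ℝ (Set.range v))).Nonempty → CoreFor n (convexHull ℝ (Set.range v))

theorem add_neg_eq {n : ℕ} (K : Set (Fin n → ℝ)) (s t : ℝ) : s • K + t • (-K) = s • K - t • K := by
  rw [Set.smul_set_neg, ← sub_eq_add_neg]

theorem vol_ne_top {n : ℕ} {K : Set (Fin n → ℝ)} (h : Bornology.IsBounded K) (s t : ℝ) :
    volume (s • K - t • K) ≠ ⊤ := by
  have h1 : Bornology.IsBounded (s • K - t • K) := by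
    rw [sub_eq_add_neg]
    exact (h.smul₀ s).add ((h.smul₀ t).neg)
  exact h1.measure_lt_top.ne

theorem core_finset (hcore : HCore) (n : ℕ) (V : Finset (Fin n → ℝ))
    (hi : (interior (convexHull ℝ (V : Set (Fin n → ℝ)))).Nonempty) :
    CoreFor n (convexHull ℝ (V : Set (Fin n → ℝ))) := by
  have h := hcore n V.card (fun i => (V.equivFin.symm i : Fin n → ℝ))
  have hr : Set.range (fun i => (V.equivFin.symm i : Fin n → ℝ)) = (V : Set (Fin n → ℝ)) := by
    ext x
    constructor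
    · rintro ⟨i, rfl⟩
      exact (V.equivFin.symm i).2
    · intro hx
      exact ⟨V.equivFin ⟨x, hx⟩, by simp⟩
  rw [hr] at h
  exact h hi

/-- all convex bodies, `Fin n → ℝ` -/
theorem core_body (hcore : HCore) (n : ℕ) (K : Set (Fin n → ℝ)) (hK : IsCompact K)
    (hc : Convex ℝ K) (hi : (interior K).Nonempty) : CoreFor n K := by
  obtain ⟨V, hsub, hVi, hlim⟩ := exists_seq (volume : Measure (Fin n → ℝ)) K hK hc hi
  choose d hd1 hd2 using fun k => core_finset hcore n (V k) (hVi k)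
  set W : ℕ → Set (Fin n → ℝ) := fun k => convexHull ℝ (V k : Set (Fin n → ℝ)) with hW
  have hlim' : ∀ s t : ℝ, Tendsto (fun k => (volume (s • W k + t • (-(W k)))).toReal) atTop
      (𝓝 (volume (s • K + t • (-K))).toReal) := by
    intro s t
    simp_rw [add_neg_eq]
    exact (ENNReal.tendsto_toReal (vol_ne_top hK.isBounded s t)).comp (hlim s t)
  let e : ℕ → ℝ := fun j => ∑ i ∈ Finset.range (n + 1), lam n (n - j) i *
    (volume (((i : ℝ) + 1) • K + (1 : ℝ) • (-K))).toReal
  have he : ∀ j ≤ n, Tendsto (fun k => d k j) atTop (𝓝 (e j)) := by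
    intro j hj
    have h1 : ∀ k, d k j = ∑ i ∈ Finset.range (n + 1), lam n (n - j) i *
        (volume (((i : ℝ) + 1) • W k + (1 : ℝ) • (-(W k)))).toReal := by
      intro k
      rw [coef_formula n (d k) j hj]
      refine Finset.sum_congr rfl fun i _ => ?_
      rw [hd1 k ((i : ℝ) + 1) 1 (by positivity) one_pos]
      simp
    simp_rw [h1]
    exact tendsto_finset_sum _ fun i _ => (hlim' _ _).const_mul _
  refine ⟨e, ?_, ?_⟩
  · intro s t hs ht
    refine tendsto_nhds_unique (hlim' s t) ?_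
    have h2 : ∀ k, (volume (s • W k + t • (-(W k)))).toReal =
        ∑ j ∈ Finset.range (n + 1), d k j * s ^ (n - j) * t ^ j := fun k => hd1 k s t hs ht
    simp_rw [h2]
    refine tendsto_finset_sum _ fun j hj => ?_
    exact ((he j (by simpa [Nat.lt_succ_iff] using hj)).mul_const _).mul_const _
  · intro j hj
    refine ⟨ge_of_tendsto' (he j hj) fun k => (hd2 k j hj).1, le_of_tendsto' (he j hj) fun k => ?_⟩
    refine (hd2 k j hj).2.trans ?_
    gcongr
    · exact hK.measure_lt_top.ne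
    · exact hsub k

/-- zero dilations -/
theorem smul_sub_zero {n : ℕ} {K : Set (Fin n → ℝ)} (hne : K.Nonempty) (s : ℝ) :
    s • K - (0 : ℝ) • K = s • K := by
  rw [Set.zero_smul_set hne, sub_zero]

theorem zero_sub_smul {n : ℕ} {K : Set (Fin n → ℝ)} (hne : K.Nonempty) (t : ℝ) :
    (0 : ℝ) • K - t • K = -(t • K) := by
  rw [Set.zero_smul_set hne, zero_sub]

/-- the inequality `|sK - tK| ≤ |K| ∑ C(n,j)² s^(n-j) t^j` -/
theorem upper_pi (hcore : HCore) (n : ℕ) (K : Set (Fin n → ℝ)) (hK : IsCompact K)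
    (hc : Convex ℝ K) (hi : (interior K).Nonempty) (s t : ℝ) (hs : 0 ≤ s) (ht : 0 ≤ t) :
    volume (s • K - t • K) ≤
      ENNReal.ofReal (∑ j ∈ Finset.range (n + 1), (n.choose j : ℝ) ^ 2 * s ^ (n - j) * t ^ j) *
        volume K := by
  have hne : K.Nonempty := hi.mono interior_subset
  have hKf : volume K ≠ ⊤ := hK.measure_lt_top.ne
  have hpos : 0 ≤ ∑ j ∈ Finset.range (n + 1), (n.choose j : ℝ) ^ 2 * s ^ (n - j) * t ^ j :=
    Finset.sum_nonneg fun j _ => by positivity
  rcases hs.eq_or_lt with rfl | hs'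
  · rw [zero_sub_smul hne, Measure.measure_neg, Measure.addHaar_smul]
    gcongr
    rw [abs_of_nonneg (by positivity), Module.finrank_fintype_fun_eq_card, Fintype.card_fin]
    calc t ^ n = (n.choose n : ℝ) ^ 2 * (0:ℝ) ^ (n - n) * t ^ n := by simp
      _ ≤ _ := Finset.single_le_sum
        (f := fun j => (n.choose j : ℝ) ^ 2 * (0:ℝ) ^ (n - j) * t ^ j)
        (fun j _ => by positivity) (Finset.mem_range.2 (Nat.lt_succ_self n))
  rcases ht.eq_or_lt with rfl | ht'
  · rw [smul_sub_zero hne, Measure.addHaar_smul]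
    gcongr
    rw [abs_of_nonneg (by positivity), Module.finrank_fintype_fun_eq_card, Fintype.card_fin]
    calc s ^ n = (n.choose 0 : ℝ) ^ 2 * s ^ (n - 0) * (0:ℝ) ^ 0 := by simp
      _ ≤ _ := Finset.single_le_sum
        (f := fun j => (n.choose j : ℝ) ^ 2 * s ^ (n - j) * (0:ℝ) ^ j)
        (fun j _ => by positivity) (Finset.mem_range.2 (Nat.succ_pos n))
  obtain ⟨d, hd1, hd2⟩ := core_body hcore n K hK hc hi
  rw [← ENNReal.ofReal_toReal (vol_ne_top hK.isBounded s t), ← ENNReal.ofReal_toReal hKf,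
    ← ENNReal.ofReal_mul hpos]
  apply ENNReal.ofReal_le_ofReal
  rw [← add_neg_eq, hd1 s t hs' ht', Finset.sum_mul]
  refine Finset.sum_le_sum fun j hj => ?_
  have := (hd2 j (by simpa [Nat.lt_succ_iff] using hj)).2
  have h3 : 0 ≤ s ^ (n - j) * t ^ j := by positivity
  calc d j * s ^ (n - j) * t ^ j = d j * (s ^ (n - j) * t ^ j) := by ring
    _ ≤ ((n.choose j : ℝ) ^ 2 * (volume K).toReal) * (s ^ (n - j) * t ^ j) :=
      mul_le_mul_of_nonneg_right this h3
    _ = _ := by ring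

/-- Godbersen's inequality, `Fin n → ℝ` -/
theorem godbersen_pi (hcore : HCore) (n : ℕ) (K : Set (Fin n → ℝ)) (hK : IsCompact K)
    (hc : Convex ℝ K) (hi : (interior K).Nonempty) (c : ℕ → ℝ)
    (h : ∀ a b : ℝ, 0 ≤ a → 0 ≤ b → (volume (a • K + b • (-K))).toReal =
      ∑ i ∈ Finset.range (n + 1), (n.choose i : ℝ) * c i * a ^ i * b ^ (n - i)) (j : ℕ) (hj : j ≤ n) :
    c j ≤ (n.choose j : ℝ) * (volume K).toReal := by
  obtain ⟨d, hd1, hd2⟩ := core_body hcore n K hK hc hi
  have h1 : ∀ k ≤ n, d k = (n.choose (n - k) : ℝ) * c (n - k) := by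
    intro k hk
    rw [coef_formula n d k hk, coef_formula n (fun k => (n.choose (n - k) : ℝ) * c (n - k)) k hk]
    refine Finset.sum_congr rfl fun i _ => ?_
    congr 1
    have h2 := hd1 ((i : ℝ) + 1) 1 (by positivity) one_pos
    rw [h _ _ (by positivity) zero_le_one] at h2
    simp only [one_pow, mul_one] at h2
    rw [← h2, ← Finset.sum_range_reflect]
    refine Finset.sum_congr rfl fun l hl => ?_
    have : n + 1 - 1 - l = n - l := by omega
    rw [this]
  have h3 := (hd2 (n - j) (Nat.sub_le _ _)).2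
  rw [h1 (n - j) (Nat.sub_le _ _), Nat.sub_sub_self hj, Nat.choose_symm hj] at h3
  have h4 : (0 : ℝ) < (n.choose j : ℝ) := by exact_mod_cast Nat.choose_pos hj
  have h5 : (n.choose j : ℝ) * c j ≤ (n.choose j : ℝ) * ((n.choose j : ℝ) * (volume K).toReal) := by
    calc _ ≤ _ := h3
      _ = _ := by ring
  exact le_of_mul_le_mul_left h5 h4

end Pool.Agent.TH421.GO
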