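import Mathlib
import Pool.Agent.TH421.GO.Body

set_option autoImplicit false
set_option linter.all false
open Pointwise MeasureTheory Set Filter Topology

namespace Pool.Agent.TH421.GO

theorem image_diff {E F : Type*} [AddCommGroup E] [Module ℝ E] [AddCommGroup F] [Module ℝ F]
    (f : E →ₗ[ℝ] F) (A B : Set E) (s t : ℝ) : f '' (s • A - t • B) = s • (f '' A) - t • (f '' B) := by
  rw [Set.image_sub, Set.image_smul_comm, Set.image_smul_comm]
  · intro x; simp
  · intro x; simp

/-- the identification -/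
noncomputable def eq (n : ℕ) : EuclideanSpace ℝ (Fin n) ≃L[ℝ] (Fin n → ℝ) := EuclideanSpace.equiv (Fin n) ℝ

theorem vol_image (n : ℕ) (A : Set (EuclideanSpace ℝ (Fin n))) : volume (eq n '' A) = volume A := by
  have h := (EuclideanSpace.volume_preserving_symm_measurableEquiv_toLp (Fin n)).measure_preimage_equiv
    (eq n '' A)
  rw [← h]
  congr 1
  ext x
  constructor
  · rintro ⟨y, hy, hxy⟩
    have : y = x := (eq n).injective hxy
    exact this ▸ hy
  · intro hx
    exact ⟨x, hx, rfl⟩

theorem int_image (n : ℕ) (A : Set (EuclideanSpace ℝ (Fin n))) (h : (interior A).Nonempty) :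
    (interior (eq n '' A)).Nonempty := by
  have := (eq n).toHomeomorph.image_interior A
  obtain ⟨x, hx⟩ := h
  refine ⟨eq n x, ?_⟩
  have h2 : (eq n).toHomeomorph x ∈ (eq n).toHomeomorph '' interior A := mem_image_of_mem _ hx
  rw [this] at h2
  exact h2

theorem upper_euc (hcore : HCore) (n : ℕ) (K : Set (EuclideanSpace ℝ (Fin n))) (hK : IsCompact K)
    (hc : Convex ℝ K) (hi : (interior K).Nonempty) (s t : ℝ) (hs : 0 ≤ s) (ht : 0 ≤ t) :
    volume (s • K - t • K) ≤
      ENNReal.ofReal (∑ j ∈ Finset.range (n + 1), (n.choose j : ℝ) ^ 2 * s ^ (n - j) * t ^ j) *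
        volume K := by
  have h := upper_pi hcore n (eq n '' K) (hK.image (eq n).continuous)
    (hc.linear_image ((eq n : EuclideanSpace ℝ (Fin n) →ₗ[ℝ] (Fin n → ℝ)))) (int_image n K hi) s t hs ht
  have h2 := image_diff ((eq n : EuclideanSpace ℝ (Fin n) →ₗ[ℝ] (Fin n → ℝ))) K K s t
  simp only [LinearEquiv.coe_coe, ContinuousLinearEquiv.coe_toLinearEquiv] at h2
  rw [← h2, vol_image, vol_image] at h
  exact h

theorem godbersen_euc (hcore : HCore) (n : ℕ) (K : Set (EuclideanSpace ℝ (Fin n))) (hK : IsCompact K)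
    (hc : Convex ℝ K) (hi : (interior K).Nonempty) (c : ℕ → ℝ)
    (h : ∀ a b : ℝ, 0 ≤ a → 0 ≤ b → (volume (a • K + b • (-K))).toReal =
      ∑ i ∈ Finset.range (n + 1), (n.choose i : ℝ) * c i * a ^ i * b ^ (n - i)) (j : ℕ) (hj : j ≤ n) :
    c j ≤ (n.choose j : ℝ) * (volume K).toReal := by
  rw [← vol_image n K]
  refine godbersen_pi hcore n (eq n '' K) (hK.image (eq n).continuous)
    (hc.linear_image ((eq n : EuclideanSpace ℝ (Fin n) →ₗ[ℝ] (Fin n → ℝ)))) (int_image n K hi) c ?_ j hj
  intro a b ha hb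
  rw [← h a b ha hb]
  have h2 := image_diff ((eq n : EuclideanSpace ℝ (Fin n) →ₗ[ℝ] (Fin n → ℝ))) K K a b
  simp only [LinearEquiv.coe_coe, ContinuousLinearEquiv.coe_toLinearEquiv] at h2
  rw [add_neg_eq, ← h2, vol_image, Set.smul_set_neg, ← sub_eq_add_neg]

/-- the unbalanced Rogers–Shephard inequality from the polytope core and the simplex volume -/
theorem unbalanced (hcore : HCore)
    (hsim : ∀ (n : ℕ) (v : Fin (n + 1) → EuclideanSpace ℝ (Fin n)),
      AffineIndependent ℝ v → ∀ a b : ℝ, 0 ≤ a → 0 ≤ b →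
      ENNReal.ofReal (∑ i ∈ Finset.range (n + 1), (n.choose i : ℝ) ^ 2 * a ^ i * b ^ (n - i)) *
          volume (convexHull ℝ (Set.range v)) ≤
        volume (a • convexHull ℝ (Set.range v) - b • convexHull ℝ (Set.range v)))
    (n : ℕ) (K : Set (EuclideanSpace ℝ (Fin n)))
    (hK : IsCompact K) (hc : Convex ℝ K) (hi : (interior K).Nonempty)
    (v : Fin (n + 1) → EuclideanSpace ℝ (Fin n)) (hv : AffineIndependent ℝ v)
    (hvol : volume (convexHull ℝ (Set.range v)) = volume K) (t : ℝ) (ht : 0 ≤ t) (ht1 : t ≤ 1) :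
    volume ((1 - t) • K - t • K) / volume K ≤
      volume ((1 - t) • convexHull ℝ (Set.range v) - t • convexHull ℝ (Set.range v))
        / volume (convexHull ℝ (Set.range v)) := by
  rw [hvol]
  refine ENNReal.div_le_div_right ?_ _
  have h1 := upper_euc hcore n K hK hc hi (1 - t) t (by linarith) ht
  have h2 := hsim n v hv (1 - t) t (by linarith) ht
  rw [hvol] at h2
  refine h1.trans (le_trans (le_of_eq ?_) h2)
  congr 2
  rw [← Finset.sum_range_reflect]
  refine Finset.sum_congr rfl fun l hl => ?_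
  have hl' : l ≤ n := by simpa [Nat.lt_succ_iff] using hl
  have : n + 1 - 1 - l = n - l := by omega
  rw [this, Nat.choose_symm hl', Nat.sub_sub_self hl']

end Pool.Agent.TH421.GO
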